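import Pool.Agent.Helper51.BW.Spec2

open MeasureTheory Filter Topology

namespace Pool.Agent.Helper33.BW.COV

open Pool.Agent.Helper51.BW

theorem main (hLAW : S_LAW) : S_COV := by
  intro d Ω _ μ _ p X hp0 hp1 hX b c g h hbc hg hh
  obtain ⟨n, rfl⟩ := Nat.exists_eq_add_of_le hbc
  have e1 : ∫ ω, g (fun n => X 0 n ω) ∂μ = Ex (p 0) b (fun L => g (pos L)) := by
    refine hLAW d Ω μ p X hp0 hp1 hX b g fun S S' hS => hg S S' fun t ht => ?_
    rw [hS _ (by omega), hS _ (by omega)]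
  have e2 : ∫ ω, h (fun n => X 0 n ω) ∂μ = Ex (p 0) (b + n) (fun L => h (pos L)) := by
    refine hLAW d Ω μ p X hp0 hp1 hX (b + n) h fun S S' hS => hh S S' fun t ht ht' => ?_
    rw [hS _ (by omega), hS _ (by omega)]
  have e3 : ∫ ω, g (fun n => X 0 n ω) * h (fun n => X 0 n ω) ∂μ =
      Ex (p 0) (b + n) (fun L => g (pos L) * h (pos L)) := by
    refine hLAW d Ω μ p X hp0 hp1 hX (b + n) (fun S => g S * h S) fun S S' hS => ?_
    have h1 : g S = g S' := hg S S' fun t ht => by
      rw [hS _ (by omega), hS _ (by omega)]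
    have h2 : h S = h S' := hh S S' fun t ht ht' => by
      rw [hS _ (by omega), hS _ (by omega)]
    simp only [h1, h2]
  have kg : ∀ l1 l2 : List (D d), l1.length = b → g (pos (l1 ++ l2)) = g (pos l1) := by
    intro l1 l2 hl
    refine hg _ _ fun t ht => ?_
    rw [pos_append_le _ _ _ (by omega), pos_append_le _ _ _ (by omega)]
  have kh : ∀ l1 l2 : List (D d), l1.length = b →
      h (pos (l1 ++ l2)) = h (fun m => pos l2 (m - b)) := by
    intro l1 l2 hl
    refine hh _ _ fun t ht _ => ?_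
    obtain ⟨s, rfl⟩ := Nat.exists_eq_add_of_le ht
    have h1 := pos_append_add l1 l2 s
    have h2 := pos_append_add l1 l2 (s + 1)
    rw [hl] at h1 h2
    rw [show b + s + 1 = b + (s + 1) from by ring, h1, h2,
      show b + (s + 1) - b = s + 1 from by omega, show b + s - b = s from by omega]
    abel
  rw [e3, e1, e2, Ex_append, Ex_append]
  have k1 : Ex (p 0) b (fun l1 => Ex (p 0) n (fun l2 => h (pos (l1 ++ l2)))) =
      Ex (p 0) n (fun l2 => h (fun m => pos l2 (m - b))) := by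
    rw [← Ex_const (p 0) (hp1 0) b (Ex (p 0) n (fun l2 => h (fun m => pos l2 (m - b))))]
    exact Ex_congr _ _ fun l1 hl1 => Ex_congr _ _ fun l2 _ => kh l1 l2 hl1
  rw [k1, ← Ex_mul_right]
  refine Ex_congr _ _ fun l1 hl1 => ?_
  rw [← Ex_mul_left]
  refine Ex_congr _ _ fun l2 _ => ?_
  rw [kg l1 l2 hl1, kh l1 l2 hl1]

end Pool.Agent.Helper33.BW.COV
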