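import Pool.Agent.Helper51.BW.Spec2

open MeasureTheory Filter Topology

namespace Pool.Agent.Helper33.BW.LLN

open Pool.Agent.Helper51.BW

theorem meas_loc {d : ℕ} {Ω : Type} [MeasurableSpace Ω] {X : ℕ → ℕ → Ω → V d}
    (hm : ∀ n, Measurable (X 0 n)) {j L : ℕ} {g : (ℕ → V d) → ℝ} (hg : LocDep j L g) :
    Measurable (fun ω => g (fun n => X 0 n ω)) := by
  classical
  set G : (Fin (j + L + 1) → V d) → ℝ := fun s =>
    g (fun n => if h : n < j + L + 1 then s ⟨n, h⟩ else 0) with hG
  have h1 : (fun ω => g (fun n => X 0 n ω)) = fun ω => G (fun t => X 0 t ω) := by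
    funext ω
    rw [hG]
    refine hg _ _ fun t _ ht => ?_
    simp only
    rw [dif_pos (by omega), dif_pos (by omega)]
  rw [h1]
  have h2 : Measurable G := measurable_of_countable G
  exact h2.comp (measurable_pi_lambda _ fun t => hm t)

theorem markov {Ω : Type} [MeasurableSpace Ω] {μ : Measure Ω} [IsProbabilityMeasure μ]
    {f : Ω → ℝ} (h0 : ∀ ω, 0 ≤ f ω) (hf : Integrable f μ) {ε : ℝ} (hε : 0 < ε) :
    μ {ω | ε ≤ f ω} ≤ ENNReal.ofReal ((∫ ω, f ω ∂μ) / ε) := by
  have h1 := mul_meas_ge_le_integral_of_nonneg (Eventually.of_forall h0) hf ε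
  rw [← ENNReal.ofReal_toReal (measure_ne_top μ {ω | ε ≤ f ω})]
  refine ENNReal.ofReal_le_ofReal ?_
  rw [le_div_iff₀ hε, mul_comm]
  exact h1

theorem card_near (n j L : ℕ) :
    (((Finset.range n).filter fun k => k < j + 2 * L ∧ j < k + 2 * L).card : ℝ) ≤ 4 * L := by
  have h1 : ((Finset.range n).filter fun k => k < j + 2 * L ∧ j < k + 2 * L) ⊆
      Finset.Ico (j - 2 * L + (if 2 * L ≤ j then 1 else 0)) (j + 2 * L) := by
    intro k hk
    simp only [Finset.mem_filter, Finset.mem_range] at hk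
    simp only [Finset.mem_Ico]
    split_ifs <;> omega
  have h2 := Finset.card_le_card h1
  rw [Nat.card_Ico] at h2
  have h3 : ((Finset.range n).filter fun k => k < j + 2 * L ∧ j < k + 2 * L).card ≤ 4 * L := by
    split_ifs at h2 <;> omega
  calc (((Finset.range n).filter fun k => k < j + 2 * L ∧ j < k + 2 * L).card : ℝ) ≤
        ((4 * L : ℕ) : ℝ) := by exact_mod_cast h3
    _ = 4 * L := by push_cast; ring

theorem main (hCOV : S_COV) (hREG2 : S_REG2) : S_LLN := by
  intro d Ω _ μ _ p X hp0 hp1 hX f K hf hfm happ δ hδ η hη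
  have hreg := hREG2 d Ω μ p X hp0 hp1 hX
  have hpath : ∀ᵐ ω ∂μ, PathHyp (fun n => X 0 n ω) := by
    filter_upwards [hreg] with ω hω using hω.1 0
  have hK0 : 0 ≤ K := by
    obtain ⟨ω, hω⟩ := hpath.exists
    exact (hf 0 _ hω).1.trans (hf 0 _ hω).2
  set δ' : ℝ := min (δ / 4) (η * δ / 8) with hδ'
  have hδ'0 : 0 < δ' := lt_min (by linarith) (by positivity)
  have hδ'1 : δ' ≤ δ / 4 := min_le_left _ _
  have hδ'2 : δ' ≤ η * δ / 8 := min_le_right _ _
  obtain ⟨L, g, hgl, hgb, hgf⟩ := happ δ' hδ'0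
  have hmeas : ∀ n, Measurable (X 0 n) := fun n => hX.meas 0 n
  have hgm : ∀ j, Measurable (fun ω => g j (fun n => X 0 n ω)) := fun j => meas_loc hmeas (hgl j)
  have hgi : ∀ j, Integrable (fun ω => g j (fun n => X 0 n ω)) μ := by
    intro j
    refine Integrable.of_bound (hgm j).aestronglyMeasurable K ?_
    filter_upwards [hpath] with ω hω
    rw [Real.norm_eq_abs, abs_le]
    have := hgb j _ hω
    constructor <;> linarith [this.1, this.2]
  have hfi : ∀ j, Integrable (fun ω => f j (fun n => X 0 n ω)) μ := by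
    intro j
    refine Integrable.of_bound (hfm j) K ?_
    filter_upwards [hpath] with ω hω
    rw [Real.norm_eq_abs, abs_le]
    have := hf j _ hω
    constructor <;> linarith [this.1, this.2]
  set c : ℕ → ℝ := fun j => ∫ ω, g j (fun n => X 0 n ω) ∂μ with hc
  have hc0 : ∀ j, 0 ≤ c j := by
    intro j
    refine integral_nonneg_of_ae ?_
    filter_upwards [hpath] with ω hω using (hgb j _ hω).1
  have hggi : ∀ j k, Integrable (fun ω => g j (fun n => X 0 n ω) * g k (fun n => X 0 n ω)) μ := by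
    intro j k
    refine Integrable.of_bound ((hgm j).mul (hgm k)).aestronglyMeasurable (K * K) ?_
    filter_upwards [hpath] with ω hω
    rw [Real.norm_eq_abs, abs_of_nonneg (mul_nonneg (hgb j _ hω).1 (hgb k _ hω).1)]
    exact mul_le_mul (hgb j _ hω).2 (hgb k _ hω).2 (hgb k _ hω).1 hK0
  have hgg : ∀ j k, ∫ ω, g j (fun n => X 0 n ω) * g k (fun n => X 0 n ω) ∂μ ≤ K * K := by
    intro j k
    have h1 : ∫ ω, g j (fun n => X 0 n ω) * g k (fun n => X 0 n ω) ∂μ ≤ ∫ _ω, K * K ∂μ := by
      refine integral_mono_ae (hggi j k) (integrable_const _) ?_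
      filter_upwards [hpath] with ω hω
      exact mul_le_mul (hgb j _ hω).2 (hgb k _ hω).2 (hgb k _ hω).1 hK0
    simpa using h1
  have hcov0 : ∀ j k, j + 2 * L ≤ k →
      ∫ ω, g j (fun n => X 0 n ω) * g k (fun n => X 0 n ω) ∂μ = c j * c k := by
    intro j k hjk
    refine hCOV d Ω μ p X hp0 hp1 hX (j + L) (k + L) (g j) (g k) (by omega) ?_ ?_
    · intro S S' hS
      exact hgl j S S' fun t _ ht => hS t ht
    · intro S S' hS
      exact hgl k S S' fun t ht ht' => hS t (by omega) ht'
  have hcov : ∀ j k, ∫ ω, (g j (fun n => X 0 n ω) - c j) * (g k (fun n => X 0 n ω) - c k) ∂μ ≤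
      if k < j + 2 * L ∧ j < k + 2 * L then K * K else 0 := by
    intro j k
    have e1 : ∫ ω, (g j (fun n => X 0 n ω) - c j) * (g k (fun n => X 0 n ω) - c k) ∂μ =
        ∫ ω, g j (fun n => X 0 n ω) * g k (fun n => X 0 n ω) ∂μ - c j * c k := by
      have e2 : (fun ω => (g j (fun n => X 0 n ω) - c j) * (g k (fun n => X 0 n ω) - c k)) =
          fun ω => (g j (fun n => X 0 n ω) * g k (fun n => X 0 n ω) -
            c k * g j (fun n => X 0 n ω)) - (c j * g k (fun n => X 0 n ω) - c j * c k) := by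
        funext ω; ring
      have iB : Integrable (fun ω => c k * g j (fun n => X 0 n ω)) μ := (hgi j).const_mul _
      have iC : Integrable (fun ω => c j * g k (fun n => X 0 n ω)) μ := (hgi k).const_mul _
      have iD : Integrable (fun _ : Ω => c j * c k) μ := integrable_const _
      have iAB : Integrable (fun ω => g j (fun n => X 0 n ω) * g k (fun n => X 0 n ω) -
            c k * g j (fun n => X 0 n ω)) μ := (hggi j k).sub iB
      have iCD : Integrable (fun ω => c j * g k (fun n => X 0 n ω) - c j * c k) μ := iC.sub iD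
      rw [e2, integral_sub iAB iCD, integral_sub (hggi j k) iB, integral_sub iC iD,
        integral_const_mul, integral_const_mul]
      simp only [integral_const, probReal_univ, smul_eq_mul, one_mul]
      change _ - c k * c j - (c j * c k - c j * c k) = _
      ring
    rw [e1]
    split_ifs with h
    · have := hgg j k
      have := mul_nonneg (hc0 j) (hc0 k)
      linarith
    · have h' : j + 2 * L ≤ k ∨ k + 2 * L ≤ j := by omega
      rcases h' with h' | h'
      · rw [hcov0 j k h']
        linarith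
      · have h3 := hcov0 k j h'
        have h4 : ∫ ω, g j (fun n => X 0 n ω) * g k (fun n => X 0 n ω) ∂μ =
            ∫ ω, g k (fun n => X 0 n ω) * g j (fun n => X 0 n ω) ∂μ :=
          integral_congr_ae (Eventually.of_forall fun ω => mul_comm _ _)
        rw [h4, h3]
        linarith [mul_comm (c k) (c j)]
  -- the variance
  set u : ℕ → Ω → ℝ := fun j ω => g j (fun n => X 0 n ω) - c j with hu
  have huu : ∀ j k, Integrable (fun ω => u j ω * u k ω) μ := by
    intro j k
    have e2 : (fun ω => u j ω * u k ω) =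
        fun ω => (g j (fun n => X 0 n ω) * g k (fun n => X 0 n ω) -
          c k * g j (fun n => X 0 n ω)) - (c j * g k (fun n => X 0 n ω) - c j * c k) := by
      funext ω; simp only [hu]; ring
    rw [e2]
    exact ((hggi j k).sub ((hgi j).const_mul _)).sub (((hgi k).const_mul _).sub
      (integrable_const _))
  have hsq : ∀ n : ℕ, (fun ω => (∑ j ∈ Finset.range n, u j ω) ^ 2) =
      fun ω => ∑ j ∈ Finset.range n, ∑ k ∈ Finset.range n, u j ω * u k ω := by
    intro n
    funext ω
    rw [sq, Finset.sum_mul_sum]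
  have hsqi : ∀ n : ℕ, Integrable (fun ω => (∑ j ∈ Finset.range n, u j ω) ^ 2) μ := by
    intro n
    rw [hsq]
    exact integrable_finsetSum _ fun j _ => integrable_finsetSum _ fun k _ => huu j k
  have hvar : ∀ n : ℕ, ∫ ω, (∑ j ∈ Finset.range n, u j ω) ^ 2 ∂μ ≤ n * (4 * L * (K * K)) := by
    intro n
    have e1 : ∫ ω, (∑ j ∈ Finset.range n, u j ω) ^ 2 ∂μ =
        ∑ j ∈ Finset.range n, ∑ k ∈ Finset.range n, ∫ ω, u j ω * u k ω ∂μ := by
      have := congrArg (fun F : Ω → ℝ => ∫ ω, F ω ∂μ) (hsq n)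
      rw [this, integral_finsetSum _ fun j _ => integrable_finsetSum _ fun k _ => huu j k]
      exact Finset.sum_congr rfl fun j _ => integral_finsetSum _ fun k _ => huu j k
    rw [e1]
    calc ∑ j ∈ Finset.range n, ∑ k ∈ Finset.range n, ∫ ω, u j ω * u k ω ∂μ ≤
          ∑ _j ∈ Finset.range n, (4 * L * (K * K) : ℝ) := by
          refine Finset.sum_le_sum fun j _ => ?_
          calc ∑ k ∈ Finset.range n, ∫ ω, u j ω * u k ω ∂μ ≤
                ∑ k ∈ Finset.range n, (if k < j + 2 * L ∧ j < k + 2 * L then K * K else 0) :=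
                Finset.sum_le_sum fun k _ => hcov j k
            _ = ((Finset.range n).filter fun k => k < j + 2 * L ∧ j < k + 2 * L).card *
                (K * K) := by
                rw [← Finset.sum_filter, Finset.sum_const, nsmul_eq_mul]
            _ ≤ 4 * L * (K * K) :=
                mul_le_mul_of_nonneg_right (card_near n j L) (mul_nonneg hK0 hK0)
      _ = n * (4 * L * (K * K)) := by
          rw [Finset.sum_const, Finset.card_range, nsmul_eq_mul]
  -- conclusion
  have hlim : ∀ᶠ n : ℕ in atTop, (n * (4 * L * (K * K)) : ℝ) / (δ * n / 2) ^ 2 ≤ η / 2 := by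
    have h1 : Tendsto (fun n : ℕ => (16 * L * (K * K) / δ ^ 2 : ℝ) / n) atTop (𝓝 0) :=
      tendsto_const_div_atTop_nhds_zero_nat _
    filter_upwards [h1.eventually (gt_mem_nhds (show (0 : ℝ) < η / 2 by linarith)),
      eventually_gt_atTop 0] with n hn hn0
    have hn0' : (0 : ℝ) < n := by exact_mod_cast hn0
    have e : (n * (4 * L * (K * K)) : ℝ) / (δ * n / 2) ^ 2 =
        (16 * L * (K * K) / δ ^ 2 : ℝ) / n := by
      field_simp
      ring
    rw [e]
    exact hn.le
  filter_upwards [hlim, eventually_gt_atTop 0] with n hn hn0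
  have hn0' : (0 : ℝ) < n := by exact_mod_cast hn0
  set a : Ω → ℝ := fun ω => ∑ j ∈ Finset.range n,
    |f j (fun n => X 0 n ω) - g j (fun n => X 0 n ω)| with ha
  have hint : ∀ j, Integrable (fun ω => |f j (fun n => X 0 n ω) - g j (fun n => X 0 n ω)|) μ :=
    fun j => ((hfi j).sub (hgi j)).abs
  have hai : Integrable a μ := integrable_finsetSum _ fun j _ => hint j
  have haint : ∫ ω, a ω ∂μ ≤ n * δ' := by
    rw [ha, integral_finsetSum _ fun j _ => hint j]
    calc _ ≤ ∑ _j ∈ Finset.range n, δ' := Finset.sum_le_sum fun j _ => hgf j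
      _ = n * δ' := by rw [Finset.sum_const, Finset.card_range, nsmul_eq_mul]
  have hcf : |(∑ j ∈ Finset.range n, ∫ ω, f j (fun n => X 0 n ω) ∂μ) -
      ∑ j ∈ Finset.range n, c j| ≤ n * δ' := by
    rw [← Finset.sum_sub_distrib]
    calc _ ≤ ∑ j ∈ Finset.range n, |(∫ ω, f j (fun n => X 0 n ω) ∂μ) - c j| :=
          Finset.abs_sum_le_sum_abs _ _
      _ ≤ ∑ _j ∈ Finset.range n, δ' := by
          refine Finset.sum_le_sum fun j _ => ?_
          rw [hc]
          simp only
          rw [← integral_sub (hfi j) (hgi j)]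
          exact (abs_integral_le_integral_abs).trans (hgf j)
      _ = n * δ' := by rw [Finset.sum_const, Finset.card_range, nsmul_eq_mul]
  have hsub : {ω | ∑ j ∈ Finset.range n, f j (fun n => X 0 n ω) <
      (∑ j ∈ Finset.range n, ∫ ω, f j (fun n => X 0 n ω) ∂μ) - δ * n} ⊆
      {ω | δ * n / 4 ≤ a ω} ∪ {ω | (δ * n / 2) ^ 2 ≤ (∑ j ∈ Finset.range n, u j ω) ^ 2} := by
    intro ω hω
    simp only [Set.mem_ofPred_eq] at hω
    by_cases h1 : δ * n / 4 ≤ a ω
    · exact Or.inl h1
    · right
      simp only [Set.mem_ofPred_eq]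
      push Not at h1
      have h2 : |∑ j ∈ Finset.range n, f j (fun n => X 0 n ω) -
          ∑ j ∈ Finset.range n, g j (fun n => X 0 n ω)| ≤ a ω := by
        rw [← Finset.sum_sub_distrib]
        exact Finset.abs_sum_le_sum_abs _ _
      have h3 : ∑ j ∈ Finset.range n, u j ω = ∑ j ∈ Finset.range n, g j (fun n => X 0 n ω) -
          ∑ j ∈ Finset.range n, c j := by
        rw [← Finset.sum_sub_distrib]
      have h4 := abs_le.1 h2
      have h5 := abs_le.1 hcf
      have h6 : (n : ℝ) * δ' ≤ δ * n / 4 := by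
        calc (n : ℝ) * δ' ≤ n * (δ / 4) := mul_le_mul_of_nonneg_left hδ'1 hn0'.le
          _ = δ * n / 4 := by ring
      have h7 : ∑ j ∈ Finset.range n, u j ω ≤ -(δ * n / 2) := by
        rw [h3]
        linarith [h4.1, h5.2]
      have h8 : 0 ≤ δ * n / 2 := by positivity
      nlinarith
  refine (measure_mono hsub).trans ((measure_union_le _ _).trans ?_)
  have m1 := markov (μ := μ) (f := a) (fun ω => Finset.sum_nonneg fun j _ => abs_nonneg _) hai
    (show 0 < δ * n / 4 by positivity)
  have m2 := markov (μ := μ) (f := fun ω => (∑ j ∈ Finset.range n, u j ω) ^ 2)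
    (fun ω => sq_nonneg _) (hsqi n) (show 0 < (δ * n / 2) ^ 2 by positivity)
  refine (add_le_add m1 m2).trans ?_
  have k1 : (∫ ω, a ω ∂μ) / (δ * n / 4) ≤ η / 2 := by
    rw [div_le_iff₀ (by positivity)]
    calc ∫ ω, a ω ∂μ ≤ n * δ' := haint
      _ ≤ n * (η * δ / 8) := mul_le_mul_of_nonneg_left hδ'2 hn0'.le
      _ = η / 2 * (δ * n / 4) := by ring
  have k2 : (∫ ω, (∑ j ∈ Finset.range n, u j ω) ^ 2 ∂μ) / (δ * n / 2) ^ 2 ≤ η / 2 :=
    (div_le_div_of_nonneg_right (hvar n) (sq_nonneg _)).trans hn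
  calc _ ≤ ENNReal.ofReal (η / 2) + ENNReal.ofReal (η / 2) :=
        add_le_add (ENNReal.ofReal_le_ofReal k1) (ENNReal.ofReal_le_ofReal k2)
    _ = ENNReal.ofReal η := by
        rw [← ENNReal.ofReal_add (by linarith) (by linarith)]
        congr 1
        ring

end Pool.Agent.Helper33.BW.LLN
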